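import Mathlib
import Pool.Agent.MP_3737e1_gt.Assembly
import Pool.Agent.MP_3737e1_gt.Numeric

/-!
The convex moving sofa problem for a right-angled corner: the maximal area `A_conv` and all
convex regions attaining it.
-/

namespace Pool.Agent.Results.MP_3737e1_gt.ConvexSofa

open Pool.Agent.MP_3737e1_gt MeasureTheory Set Real

/-- There is exactly one `τ` in `(0, π/4)` with `TauEq τ`. With `a = topHeight τ`, the largest area
of a convex region that can be moved around the corner is `areaVal τ a` (between `1.6447` and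
`1.6449`), and the convex regions of this area that can be moved around the corner are exactly the
images of `sofa τ a` under orientation-preserving rigid motions. -/
theorem result :
    ∃ τ ∈ Ioo (0 : ℝ) (π / 4), TauEq τ ∧ (∀ τ' ∈ Ioo (0 : ℝ) (π / 4), TauEq τ' → τ' = τ) ∧
      IsGreatest movableAreas (areaVal τ (topHeight τ)) ∧
      Aconv = areaVal τ (topHeight τ) ∧ 1.6447 < Aconv ∧ Aconv < 1.6449 ∧
      ∀ S : Set ℂ,
        (IsCompact S ∧ Convex ℝ S ∧ CanMove S ∧ (volume S).toReal = Aconv) ↔
          ∃ (c : Circle) (b : ℂ), S = rig c b '' sofa τ (topHeight τ) := by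
  obtain ⟨τ, hτ, h⟩ := exists_tau
  have hτ' : τ ∈ Ioo (0 : ℝ) (π / 4) := ⟨hτ.1, by have := hτ.2; linarith [pi_pos]⟩
  have P : Params τ (topHeight τ) := ⟨hτ'.1, hτ'.2, rfl, h⟩
  have hgr : IsGreatest movableAreas (areaVal τ (topHeight τ)) := by
    constructor
    · exact ⟨sofa τ (topHeight τ), isCompact_sofa P, convex_sofa P, P.canMove, area_sofa P⟩
    · rintro A ⟨S, h1, h2, h3, rfl⟩
      exact area_le_areaVal P h1 h2 h3
  have hA : Aconv = areaVal τ (topHeight τ) := hgr.csSup_eq
  have hnum := areaVal_bounds hτ' h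
  refine ⟨τ, hτ', h, fun τ' h1 h2 => tau_unique h1 h2 hτ' h, hgr, hA, ?_, ?_, fun S => ?_⟩
  · rw [hA]; exact hnum.1
  · rw [hA]; exact hnum.2
  · rw [hA]
    constructor
    · rintro ⟨h1, h2, h3, h4⟩
      exact unique_maximiser P h1 h2 h3 h4
    · rintro ⟨c, b, rfl⟩
      exact ⟨compact_rig c b (isCompact_sofa P), convex_rig c b (convex_sofa P),
        canMove_rig c b P.canMove, by rw [volume_rig c b (isCompact_sofa P)]; exact area_sofa P⟩

end Pool.Agent.Results.MP_3737e1_gt.ConvexSofa
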